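import Mathlib

set_option autoImplicit false

namespace Pool.Agent.Results.MP_0eaff0_co.QuadricDisproof

open Finset

/-- `F` is an `ℓ`-flat of `ℂ^d`: a nonempty complex affine subspace of dimension `ℓ`. -/
def IsFlat {d : ℕ} (ℓ : ℕ) (F : AffineSubspace ℂ (Fin d → ℂ)) : Prop :=
  (F : Set (Fin d → ℂ)).Nonempty ∧ Module.finrank ℂ F.direction = ℓ

/-- the number of `r`-rich lines of `V`: lines containing at least `r` points of `V` -/
noncomputable def numRich {d : ℕ} (V : Finset (Fin d → ℂ)) (r : ℕ) : ℕ :=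
  {L : AffineSubspace ℂ (Fin d → ℂ) |
    IsFlat 1 L ∧ r ≤ ((V : Set (Fin d → ℂ)) ∩ (L : Set (Fin d → ℂ))).ncard}.ncard

/-- `s_ℓ(V)`: the maximal number of points of `V` in an `ℓ`-flat -/
noncomputable def maxFlat {d : ℕ} (V : Finset (Fin d → ℂ)) (ℓ : ℕ) : ℕ :=
  sSup {m : ℕ | ∃ F : AffineSubspace ℂ (Fin d → ℂ),
    IsFlat ℓ F ∧ m = ((V : Set (Fin d → ℂ)) ∩ (F : Set (Fin d → ℂ))).ncard}

/-- the bracket `n² r^(-d-1) + ∑_{2 ≤ ℓ ≤ d-1} n s_ℓ r^(-ℓ-1) + n r^(-1)` -/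
noncomputable def bracket {d : ℕ} (V : Finset (Fin d → ℂ)) (r : ℕ) : ℝ :=
  (V.card : ℝ) ^ 2 / (r : ℝ) ^ (d + 1)
    + ∑ ℓ ∈ Finset.Icc 2 (d - 1), (V.card : ℝ) * (maxFlat V ℓ : ℝ) / (r : ℝ) ^ (ℓ + 1)
    + (V.card : ℝ) / (r : ℝ)

lemma bracket_nonneg {d : ℕ} (V : Finset (Fin d → ℂ)) (r : ℕ) : 0 ≤ bracket V r := by
  unfold bracket
  positivity

section construction

variable {e : ℕ}

/-- signs of the quadratic form -/
def sgn (i : Fin (e + 3)) : ℤ := if i = 2 then -1 else 1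

/-- the quadratic form -/
def Q (x : Fin (e + 3) → ℤ) : ℤ := ∑ i, sgn i * x i ^ 2

/-- its polar form -/
def B (x y : Fin (e + 3) → ℤ) : ℤ := ∑ i, sgn i * (x i * y i)

/-- the point of the quadric above `x` -/
noncomputable def φ (x : Fin (e + 3) → ℤ) : Fin (e + 3 + 1) → ℂ :=
  Fin.cons ((Q x : ℤ) : ℂ) (fun i => ((x i : ℤ) : ℂ))

lemma φ_zero (x : Fin (e + 3) → ℤ) : φ x 0 = ((Q x : ℤ) : ℂ) := rfl

lemma φ_succ (x : Fin (e + 3) → ℤ) (i : Fin (e + 3)) : φ x i.succ = ((x i : ℤ) : ℂ) := rfl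

lemma φ_inj : Function.Injective (φ (e := e)) := by
  intro x y h
  funext i
  have := congrFun h i.succ
  rw [φ_succ, φ_succ] at this
  exact_mod_cast this

lemma Q_add (x y : Fin (e + 3) → ℤ) (t : ℤ) :
    Q (fun i => x i + t * y i) = Q x + 2 * t * B x y + t ^ 2 * Q y := by
  unfold Q B
  rw [Finset.mul_sum, Finset.mul_sum, ← Finset.sum_add_distrib, ← Finset.sum_add_distrib]
  refine Finset.sum_congr rfl fun i _ => ?_
  ring

/-- the box -/
noncomputable def box (N : ℕ) : Finset (Fin (e + 3) → ℤ) := Fintype.piFinset (fun _ => Finset.Ico (0 : ℤ) N)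

lemma card_box (N : ℕ) : (box (e := e) N).card = N ^ (e + 3) := by
  unfold box
  rw [Fintype.card_piFinset]
  simp

/-- the point set -/
noncomputable def V (N : ℕ) : Finset (Fin (e + 3 + 1) → ℂ) := by
  classical exact (box N).image φ

lemma mem_V {N : ℕ} {p : Fin (e + 3 + 1) → ℂ} : p ∈ V N ↔ ∃ x ∈ box N, φ x = p := by
  classical
  unfold V
  simp

lemma card_V (N : ℕ) : (V (e := e) N).card = N ^ (e + 3) := by
  classical
  unfold V
  rw [Finset.card_image_of_injective _ φ_inj, card_box]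

/-- at most two points of the quadric with the same `2`-coordinate are on a line -/
lemma base {N : ℕ} {A : Finset (Fin (e + 3 + 1) → ℂ)} (hA : A ⊆ V N)
    (hc : ∀ p ∈ A, ∀ q ∈ A, p (Fin.succ 2) = q (Fin.succ 2))
    (hd : Module.finrank ℂ (vectorSpan ℂ (A : Set (Fin (e + 3 + 1) → ℂ))) ≤ 1) :
    A.card ≤ 2 := by
  by_contra hcon
  push Not at hcon
  obtain ⟨p, q, r, hp, hq, hr, hpq, hpr, hqr⟩ := Finset.two_lt_card_iff.mp hcon
  obtain ⟨v, hv⟩ := finrank_le_one_iff.mp hd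
  have h1 : q - p ∈ vectorSpan ℂ (A : Set (Fin (e + 3 + 1) → ℂ)) :=
    vsub_mem_vectorSpan ℂ (Finset.mem_coe.mpr hq) (Finset.mem_coe.mpr hp)
  have h2 : r - p ∈ vectorSpan ℂ (A : Set (Fin (e + 3 + 1) → ℂ)) :=
    vsub_mem_vectorSpan ℂ (Finset.mem_coe.mpr hr) (Finset.mem_coe.mpr hp)
  obtain ⟨a, ha⟩ := hv ⟨_, h1⟩
  obtain ⟨b, hb⟩ := hv ⟨_, h2⟩
  have ha' : a • (v : Fin (e + 3 + 1) → ℂ) = q - p := by
    have := congrArg Subtype.val ha
    simpa using this
  have hb' : b • (v : Fin (e + 3 + 1) → ℂ) = r - p := by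
    have := congrArg Subtype.val hb
    simpa using this
  have ha0 : a ≠ 0 := by
    rintro rfl
    rw [zero_smul] at ha'
    exact hpq (sub_eq_zero.mp ha'.symm).symm
  obtain ⟨x, hx, rfl⟩ := mem_V.mp (hA hp)
  obtain ⟨y, hy, rfl⟩ := mem_V.mp (hA hq)
  obtain ⟨z, hz, rfl⟩ := mem_V.mp (hA hr)
  set l : ℂ := b / a with hl
  have hrel : ∀ i, φ z i - φ x i = l * (φ y i - φ x i) := by
    intro i
    have e1 := congrFun ha' i
    have e2 := congrFun hb' i
    simp only [Pi.smul_apply, smul_eq_mul, Pi.sub_apply] at e1 e2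
    rw [← e1, ← e2, hl]
    field_simp
  -- the coordinates
  have hco : ∀ i : Fin (e + 3), ((z i : ℤ) : ℂ) = (x i : ℂ) + l * ((y i : ℂ) - (x i : ℂ)) := by
    intro i
    have := hrel i.succ
    rw [φ_succ, φ_succ, φ_succ] at this
    linear_combination this
  have hQ := hrel 0
  rw [φ_zero, φ_zero, φ_zero] at hQ
  have hQc : ∀ w : Fin (e + 3) → ℤ, ((Q w : ℤ) : ℂ) = ∑ i, ((sgn i : ℤ) : ℂ) * (w i : ℂ) ^ 2 := by
    intro w
    unfold Q
    push_cast
    rfl
  have hkey : (l ^ 2 - l) * ∑ i, ((sgn i : ℤ) : ℂ) * ((y i : ℂ) - (x i : ℂ)) ^ 2 = 0 := by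
    rw [hQc, hQc, hQc] at hQ
    have : ∑ i, ((sgn i : ℤ) : ℂ) * (z i : ℂ) ^ 2
        = ∑ i, ((sgn i : ℤ) : ℂ) * ((x i : ℂ) + l * ((y i : ℂ) - (x i : ℂ))) ^ 2 := by
      refine Finset.sum_congr rfl fun i _ => ?_
      rw [hco i]
    rw [this] at hQ
    have h3 : (∑ i, ((sgn i : ℤ) : ℂ) * ((x i : ℂ) + l * ((y i : ℂ) - (x i : ℂ))) ^ 2)
        - (∑ i, ((sgn i : ℤ) : ℂ) * (x i : ℂ) ^ 2)
        - l * ((∑ i, ((sgn i : ℤ) : ℂ) * (y i : ℂ) ^ 2) - ∑ i, ((sgn i : ℤ) : ℂ) * (x i : ℂ) ^ 2)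
        = (l ^ 2 - l) * ∑ i, ((sgn i : ℤ) : ℂ) * ((y i : ℂ) - (x i : ℂ)) ^ 2 := by
      rw [← Finset.sum_sub_distrib, ← Finset.sum_sub_distrib, Finset.mul_sum, Finset.mul_sum,
        ← Finset.sum_sub_distrib]
      refine Finset.sum_congr rfl fun i _ => ?_
      ring
    rw [← h3]
    linear_combination hQ
  have hsum : (∑ i, ((sgn i : ℤ) : ℂ) * ((y i : ℂ) - (x i : ℂ)) ^ 2) ≠ 0 := by
    have hxy2 : x 2 = y 2 := by
      have := hc _ hp _ hq
      rw [φ_succ, φ_succ] at this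
      exact_mod_cast this
    have hint : (∑ i, ((sgn i : ℤ) : ℂ) * ((y i : ℂ) - (x i : ℂ)) ^ 2)
        = ((∑ i, (y i - x i) ^ 2 : ℤ) : ℂ) := by
      push_cast
      refine Finset.sum_congr rfl fun i _ => ?_
      by_cases hi : i = 2
      · subst hi
        rw [hxy2]
        simp
      · simp [sgn, hi]
    rw [hint]
    intro h0
    have h0' : (∑ i, (y i - x i) ^ 2 : ℤ) = 0 := by exact_mod_cast h0
    have hall := (Finset.sum_eq_zero_iff_of_nonneg (fun i _ => sq_nonneg (y i - x i))).mp h0'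
    apply hpq
    have : x = y := by
      funext i
      have := hall i (Finset.mem_univ i)
      have := pow_eq_zero_iff (n := 2) (by norm_num) |>.mp this
      omega
    rw [this]
  have hl2 : l ^ 2 - l = 0 := by
    rcases mul_eq_zero.mp hkey with h | h
    · exact h
    · exact absurd h hsum
  have hl01 : l = 0 ∨ l = 1 := by
    have : l * (l - 1) = 0 := by linear_combination hl2
    rcases mul_eq_zero.mp this with h | h
    · exact Or.inl h
    · exact Or.inr (sub_eq_zero.mp h)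
  rcases hl01 with h | h
  · apply hpr
    have : x = z := by
      funext i
      have := hco i
      rw [h, zero_mul, add_zero] at this
      exact_mod_cast this.symm
    rw [this]
  · apply hqr
    have : y = z := by
      funext i
      have := hco i
      rw [h, one_mul, add_sub_cancel] at this
      exact_mod_cast this.symm
    rw [this]

/-- slicing by a coordinate -/
lemma slice {N m : ℕ} {A : Finset (Fin (e + 3 + 1) → ℂ)} (hA : A ⊆ V N) (i : Fin (e + 3))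
    (h : ∀ c : ℂ, (A.filter (fun p => p i.succ = c)).card ≤ m) : A.card ≤ m * N := by
  classical
  have h1 := Finset.card_le_mul_card_image (f := fun p : Fin (e + 3 + 1) → ℂ => p i.succ) A m
    (fun c _ => h c)
  have h2 : (A.image (fun p : Fin (e + 3 + 1) → ℂ => p i.succ)).card ≤ N := by
    have hsub : A.image (fun p : Fin (e + 3 + 1) → ℂ => p i.succ)
        ⊆ (Finset.Ico (0 : ℤ) N).image (fun k : ℤ => (k : ℂ)) := by
      intro c hc
      obtain ⟨p, hp, rfl⟩ := Finset.mem_image.mp hc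
      obtain ⟨x, hx, rfl⟩ := mem_V.mp (hA hp)
      have := (Fintype.mem_piFinset.mp hx) i
      exact Finset.mem_image.mpr ⟨x i, this, rfl⟩
    refine (Finset.card_le_card hsub).trans (Finset.card_image_le.trans ?_)
    simp
  exact h1.trans (Nat.mul_le_mul_left _ h2)

/-- slicing by a nonconstant coordinate lowers the dimension -/
lemma slice_dim {A : Finset (Fin (e + 3 + 1) → ℂ)} {i : Fin (e + 3 + 1)} {p q : Fin (e + 3 + 1) → ℂ}
    (hp : p ∈ A) (hq : q ∈ A) (hpq : p i ≠ q i) (c : ℂ) :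
    Module.finrank ℂ (vectorSpan ℂ ((A.filter (fun p => p i = c) : Finset _) :
      Set (Fin (e + 3 + 1) → ℂ)))
      < Module.finrank ℂ (vectorSpan ℂ (A : Set (Fin (e + 3 + 1) → ℂ))) := by
  apply Submodule.finrank_lt_finrank_of_lt
  refine lt_of_le_of_ne (vectorSpan_mono ℂ (by
    intro x hx
    exact Finset.mem_coe.mpr (Finset.mem_filter.mp (Finset.mem_coe.mp hx)).1)) ?_
  intro heq
  have h1 : p - q ∈ vectorSpan ℂ (A : Set (Fin (e + 3 + 1) → ℂ)) :=
    vsub_mem_vectorSpan ℂ (Finset.mem_coe.mpr hp) (Finset.mem_coe.mpr hq)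
  rw [← heq] at h1
  have h2 : vectorSpan ℂ ((A.filter (fun p => p i = c) : Finset _) : Set (Fin (e + 3 + 1) → ℂ))
      ≤ LinearMap.ker (LinearMap.proj (R := ℂ) (φ := fun _ : Fin (e + 3 + 1) => ℂ) i) := by
    unfold vectorSpan
    rw [Submodule.span_le]
    rintro w ⟨a, ha, b, hb, rfl⟩
    have ha' := (Finset.mem_filter.mp (Finset.mem_coe.mp ha)).2
    have hb' := (Finset.mem_filter.mp (Finset.mem_coe.mp hb)).2
    show a i - b i = 0
    rw [ha', hb', sub_self]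
  have h3 := h2 h1
  have h4 : p i - q i = 0 := h3
  exact hpq (sub_eq_zero.mp h4)

/-- all coordinates constant: at most one point -/
lemma card_le_one_of_const {N : ℕ} {A : Finset (Fin (e + 3 + 1) → ℂ)} (hA : A ⊆ V N)
    (h : ∀ i : Fin (e + 3), ∀ p ∈ A, ∀ q ∈ A, p i.succ = q i.succ) : A.card ≤ 1 := by
  rw [Finset.card_le_one]
  intro p hp q hq
  obtain ⟨x, hx, rfl⟩ := mem_V.mp (hA hp)
  obtain ⟨y, hy, rfl⟩ := mem_V.mp (hA hq)
  have : x = y := by
    funext i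
    have := h i _ hp _ hq
    rw [φ_succ, φ_succ] at this
    exact_mod_cast this
  rw [this]

lemma flat_const {N : ℕ} (hN : 1 ≤ N) : ∀ (l : ℕ) (A : Finset (Fin (e + 3 + 1) → ℂ)), A ⊆ V N →
    (∀ p ∈ A, ∀ q ∈ A, p (Fin.succ 2) = q (Fin.succ 2)) →
    Module.finrank ℂ (vectorSpan ℂ (A : Set (Fin (e + 3 + 1) → ℂ))) ≤ l + 1 →
    A.card ≤ 2 * N ^ l := by
  intro l
  induction l with
  | zero =>
    intro A hA hc hd
    simpa using base hA hc (by simpa using hd)
  | succ l ih =>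
    intro A hA hc hd
    by_cases hall : ∀ i : Fin (e + 3), ∀ p ∈ A, ∀ q ∈ A, p i.succ = q i.succ
    · have := card_le_one_of_const hA hall
      have h2 : 1 ≤ N ^ (l + 1) := Nat.one_le_pow _ _ hN
      omega
    · push Not at hall
      obtain ⟨i, p, hp, q, hq, hpq⟩ := hall
      have := slice hA i (m := 2 * N ^ l) (fun c => by
        refine ih _ ((Finset.filter_subset _ _).trans hA) ?_ ?_
        · intro a ha b hb
          exact hc a (Finset.mem_filter.mp ha).1 b (Finset.mem_filter.mp hb).1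
        · have := slice_dim hp hq hpq c
          omega)
      calc A.card ≤ 2 * N ^ l * N := this
        _ = 2 * N ^ (l + 1) := by ring

lemma flat_bound {N : ℕ} (hN : 1 ≤ N) (l : ℕ) (A : Finset (Fin (e + 3 + 1) → ℂ)) (hA : A ⊆ V N)
    (hd : Module.finrank ℂ (vectorSpan ℂ (A : Set (Fin (e + 3 + 1) → ℂ))) ≤ l + 2) :
    A.card ≤ 2 * N ^ (l + 1) := by
  by_cases hall : ∀ p ∈ A, ∀ q ∈ A, p (Fin.succ 2) = q (Fin.succ 2)
  · exact flat_const hN (l + 1) A hA hall hd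
  · push Not at hall
    obtain ⟨p, hp, q, hq, hpq⟩ := hall
    have := slice hA 2 (m := 2 * N ^ l) (fun c => by
      refine flat_const hN l _ ((Finset.filter_subset _ _).trans hA) ?_ ?_
      · intro a ha b hb
        rw [(Finset.mem_filter.mp ha).2, (Finset.mem_filter.mp hb).2]
      · have := slice_dim hp hq hpq c
        omega)
    calc A.card ≤ 2 * N ^ l * N := this
      _ = 2 * N ^ (l + 1) := by ring

lemma maxFlat_le {N : ℕ} (hN : 1 ≤ N) (l : ℕ) (hl : 2 ≤ l) :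
    maxFlat (V (e := e) N) l ≤ 2 * N ^ (l - 1) := by
  classical
  unfold maxFlat
  apply csSup_le'
  rintro m ⟨F, ⟨_, hF⟩, rfl⟩
  have hset : ((V (e := e) N : Set (Fin (e + 3 + 1) → ℂ)) ∩ (F : Set (Fin (e + 3 + 1) → ℂ)))
      = (((V (e := e) N).filter (fun p => p ∈ F) : Finset _) : Set (Fin (e + 3 + 1) → ℂ)) := by
    ext p
    simp
  rw [hset, Set.ncard_coe_finset]
  obtain ⟨k, rfl⟩ := Nat.exists_eq_add_of_le hl
  have := flat_bound hN k ((V (e := e) N).filter (fun p => p ∈ F)) (Finset.filter_subset _ _) (by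
    have hle : vectorSpan ℂ (((V (e := e) N).filter (fun p => p ∈ F) : Finset _) :
        Set (Fin (e + 3 + 1) → ℂ)) ≤ F.direction := by
      rw [AffineSubspace.direction_eq_vectorSpan]
      apply vectorSpan_mono
      intro p hp
      exact (Finset.mem_filter.mp (Finset.mem_coe.mp hp)).2
    have := Submodule.finrank_mono hle
    omega)
  have h2 : 2 + k - 1 = k + 1 := by omega
  rw [h2]
  exact this

/-! ### rich lines -/

/-- the null vector `(4a, 4a² - 1, 4a² + 1, 0, …, 0)` -/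
def nv (a : ℤ) : Fin (e + 3) → ℤ :=
  Fin.cons (4 * a) (Fin.cons (4 * a ^ 2 - 1) (Fin.cons (4 * a ^ 2 + 1) (fun _ => 0)))

lemma nv_zero (a : ℤ) : nv (e := e) a 0 = 4 * a := rfl

lemma nv_one (a : ℤ) : nv (e := e) a 1 = 4 * a ^ 2 - 1 := rfl

lemma nv_two (a : ℤ) : nv (e := e) a 2 = 4 * a ^ 2 + 1 := rfl

lemma nv_other (a : ℤ) (i : Fin (e + 3)) (h0 : i ≠ 0) (h1 : i ≠ 1) (h2 : i ≠ 2) : nv a i = 0 := by
  induction i using Fin.cases with
  | zero => exact absurd rfl h0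
  | succ i =>
    induction i using Fin.cases with
    | zero => exact absurd rfl h1
    | succ i =>
      induction i using Fin.cases with
      | zero => exact absurd rfl h2
      | succ i => rfl

lemma Q_nv (a : ℤ) : Q (nv (e := e) a) = 0 := by
  unfold Q
  rw [Fin.sum_univ_succ, Fin.sum_univ_succ, Fin.sum_univ_succ]
  have h : ∑ i : Fin e, sgn (e := e) (Fin.succ (Fin.succ (Fin.succ i))) *
      nv a (Fin.succ (Fin.succ (Fin.succ i))) ^ 2 = 0 := by
    apply Finset.sum_eq_zero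
    intro i _
    have : nv (e := e) a (Fin.succ (Fin.succ (Fin.succ i))) = 0 := rfl
    rw [this]
    ring
  rw [h]
  have e0 : sgn (e := e) 0 = 1 := by
    unfold sgn
    rw [if_neg]
    intro h
    have := congrArg Fin.val h
    rw [Fin.val_two] at this
    simp at this
  have e1 : sgn (e := e) (Fin.succ 0) = 1 := by
    unfold sgn
    rw [if_neg]
    intro h
    have := congrArg Fin.val h
    rw [Fin.val_two] at this
    simp at this
  have e2 : sgn (e := e) (Fin.succ (Fin.succ 0)) = -1 := by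
    unfold sgn
    rw [if_pos]
    rfl
  have n1 : nv (e := e) a (Fin.succ 0) = 4 * a ^ 2 - 1 := rfl
  have n2 : nv (e := e) a (Fin.succ (Fin.succ 0)) = 4 * a ^ 2 + 1 := rfl
  rw [e0, e1, e2, nv_zero, n1, n2]
  ring

/-- the direction of the line through `φ x` above the null direction `nv a` -/
noncomputable def dir (a : ℤ) (x : Fin (e + 3) → ℤ) : Fin (e + 3 + 1) → ℂ :=
  Fin.cons ((2 * B x (nv a) : ℤ) : ℂ) (fun i => ((nv a i : ℤ) : ℂ))

lemma dir_succ (a : ℤ) (x : Fin (e + 3) → ℤ) (i : Fin (e + 3)) :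
    dir a x i.succ = ((nv a i : ℤ) : ℂ) := rfl

lemma φ_step (a : ℤ) (x : Fin (e + 3) → ℤ) (t : ℤ) :
    φ (fun i => x i + t * nv a i) - φ x = (t : ℂ) • dir a x := by
  funext i
  induction i using Fin.cases with
  | zero =>
    show ((Q (fun i => x i + t * nv a i) : ℤ) : ℂ) - ((Q x : ℤ) : ℂ)
      = (t : ℂ) * ((2 * B x (nv a) : ℤ) : ℂ)
    rw [Q_add, Q_nv]
    push_cast
    ring
  | succ i =>
    show ((x i + t * nv a i : ℤ) : ℂ) - ((x i : ℤ) : ℂ) = (t : ℂ) * ((nv a i : ℤ) : ℂ)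
    push_cast
    ring

/-- the line -/
noncomputable def ln (a : ℤ) (x : Fin (e + 3) → ℤ) : AffineSubspace ℂ (Fin (e + 3 + 1) → ℂ) :=
  AffineSubspace.mk' (φ x) (Submodule.span ℂ {dir a x})

lemma dir_ne (a : ℤ) (x : Fin (e + 3) → ℤ) : dir a x ≠ 0 := by
  intro h
  have := congrFun h (Fin.succ 2)
  rw [dir_succ, nv_two, Pi.zero_apply] at this
  have h2 : (4 * a ^ 2 + 1 : ℤ) = 0 := by exact_mod_cast this
  nlinarith [sq_nonneg a]

lemma ln_flat (a : ℤ) (x : Fin (e + 3) → ℤ) : IsFlat 1 (ln a x) := by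
  refine ⟨⟨φ x, AffineSubspace.self_mem_mk' _ _⟩, ?_⟩
  unfold ln
  rw [AffineSubspace.direction_mk']
  exact finrank_span_singleton (dir_ne a x)

/-- starting points -/
noncomputable def start (H : ℕ) (a : ℕ) : Finset (Fin (e + 3) → ℤ) :=
  Fintype.piFinset (fun i => if i = 2 then Finset.Ico (0 : ℤ) ((4 * a ^ 2 + 1 : ℕ) : ℤ)
    else Finset.Ico (0 : ℤ) (H : ℤ))

lemma card_start (H a : ℕ) : (start (e := e) H a).card = (4 * a ^ 2 + 1) * H ^ (e + 2) := by
  unfold start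
  rw [Fintype.card_piFinset, ← Finset.mul_prod_erase Finset.univ _ (Finset.mem_univ (2 : Fin (e + 3)))]
  have h1 : ∀ i ∈ Finset.univ.erase (2 : Fin (e + 3)),
      (if i = 2 then Finset.Ico (0 : ℤ) ((4 * a ^ 2 + 1 : ℕ) : ℤ)
        else Finset.Ico (0 : ℤ) (H : ℤ)).card = H := by
    intro i hi
    rw [if_neg (Finset.mem_erase.mp hi).1]
    simp
  rw [Finset.prod_congr rfl h1, Finset.prod_const, Finset.card_erase_of_mem (Finset.mem_univ _),
    if_pos rfl, Int.card_Ico, sub_zero, Int.toNat_natCast, Finset.card_univ, Fintype.card_fin]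
  rfl

lemma ln_rich {r J a : ℕ} (ha1 : 1 ≤ a) (ha : a ≤ J) {x : Fin (e + 3) → ℤ}
    (hx : x ∈ start (e := e) (r * (4 * J ^ 2 + 1)) a) :
    r ≤ ((V (e := e) (2 * (r * (4 * J ^ 2 + 1))) : Set (Fin (e + 3 + 1) → ℂ)) ∩
      (ln (a : ℤ) x : Set (Fin (e + 3 + 1) → ℂ))).ncard := by
  classical
  set N := 2 * (r * (4 * J ^ 2 + 1)) with hN
  have hxi := Fintype.mem_piFinset.mp hx
  set f : ℕ → (Fin (e + 3 + 1) → ℂ) := fun t => φ (fun i => x i + (t : ℤ) * nv (a : ℤ) i) with hf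
  have hinj : Function.Injective f := by
    intro t t' h
    have h1 := congrFun h (Fin.succ 2)
    simp only [hf, φ_succ] at h1
    have h2 : x 2 + (t : ℤ) * nv (e := e) (a : ℤ) 2 = x 2 + (t' : ℤ) * nv (e := e) (a : ℤ) 2 := by
      exact_mod_cast h1
    rw [nv_two] at h2
    have h3 : (4 * (a : ℤ) ^ 2 + 1) ≠ 0 := by positivity
    have h4 : (t : ℤ) = t' := mul_right_cancel₀ h3 (by linarith)
    exact_mod_cast h4
  have hsub : (((Finset.range r).image f : Finset _) : Set (Fin (e + 3 + 1) → ℂ)) ⊆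
      ((V (e := e) N : Set (Fin (e + 3 + 1) → ℂ)) ∩ (ln (a : ℤ) x : Set (Fin (e + 3 + 1) → ℂ))) := by
    intro p hp
    obtain ⟨t, ht, rfl⟩ := Finset.mem_image.mp (Finset.mem_coe.mp hp)
    have htr : t < r := Finset.mem_range.mp ht
    constructor
    · refine Finset.mem_coe.mpr (mem_V.mpr ⟨_, ?_, rfl⟩)
      refine Fintype.mem_piFinset.mpr fun i => ?_
      have hi := hxi i
      have haJ : (a : ℤ) ≤ J := by exact_mod_cast ha
      have ha0 : (0 : ℤ) ≤ a := Int.natCast_nonneg a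
      have hsq : (a : ℤ) ^ 2 ≤ (J : ℤ) ^ 2 := by nlinarith
      have ht1 : (t : ℤ) + 1 ≤ r := by exact_mod_cast htr
      have ht0 : (0 : ℤ) ≤ t := Int.natCast_nonneg t
      have hNz : (N : ℤ) = 2 * (r * (4 * (J : ℤ) ^ 2 + 1)) := by rw [hN]; push_cast; ring
      -- bound for the step
      have hstep : 0 ≤ (t : ℤ) * nv (a : ℤ) i ∧ (t : ℤ) * nv (a : ℤ) i ≤ t * (4 * (a : ℤ) ^ 2 + 1) := by
        by_cases h0 : i = 0
        · subst h0
          rw [nv_zero]
          constructor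
          · positivity
          · apply mul_le_mul_of_nonneg_left _ ht0
            nlinarith [sq_nonneg (2 * (a : ℤ) - 1)]
        by_cases h1 : i = 1
        · subst h1
          rw [nv_one]
          constructor
          · have ha1' : (1 : ℤ) ≤ a := by exact_mod_cast ha1
            have : (1 : ℤ) ≤ (a : ℤ) ^ 2 := by nlinarith
            apply mul_nonneg ht0
            linarith
          · apply mul_le_mul_of_nonneg_left _ ht0
            linarith
        by_cases h2 : i = 2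
        · subst h2
          rw [nv_two]
          constructor
          · positivity
          · exact le_refl _
        · rw [nv_other _ _ h0 h1 h2]
          constructor
          · simp
          · rw [mul_zero]; positivity
      have hbig : (t : ℤ) * (4 * (a : ℤ) ^ 2 + 1) + (4 * (a : ℤ) ^ 2 + 1)
          ≤ r * (4 * (J : ℤ) ^ 2 + 1) := by
        have h1 : (t : ℤ) * (4 * (a : ℤ) ^ 2 + 1) + (4 * (a : ℤ) ^ 2 + 1)
            = (t + 1) * (4 * (a : ℤ) ^ 2 + 1) := by ring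
        rw [h1]
        apply mul_le_mul ht1 (by linarith) (by positivity) (by positivity)
      have hpos : (0 : ℤ) ≤ 4 * (a : ℤ) ^ 2 + 1 := by positivity
      rw [Finset.mem_Ico]
      by_cases h2 : i = 2
      · rw [if_pos h2, Finset.mem_Ico] at hi
        push_cast at hi
        have hpos2 : (0 : ℤ) ≤ r * (4 * (J : ℤ) ^ 2 + 1) := by positivity
        constructor
        · linarith [hstep.1, hi.1]
        · rw [hNz]
          linarith [hstep.2, hi.2]
      · rw [if_neg h2, Finset.mem_Ico] at hi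
        push_cast at hi
        constructor
        · linarith [hstep.1, hi.1]
        · rw [hNz]
          linarith [hstep.2, hi.2]
    · show _ ∈ ln (a : ℤ) x
      unfold ln
      rw [AffineSubspace.mem_mk', vsub_eq_sub, hf]
      simp only
      rw [φ_step]
      exact Submodule.smul_mem _ _ (Submodule.mem_span_singleton_self _)
  have hfin : ((V (e := e) N : Set (Fin (e + 3 + 1) → ℂ)) ∩
      (ln (a : ℤ) x : Set (Fin (e + 3 + 1) → ℂ))).Finite :=
    (Finset.finite_toSet _).subset Set.inter_subset_left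
  have := Set.ncard_le_ncard hsub hfin
  rw [Set.ncard_coe_finset, Finset.card_image_of_injective _ hinj, Finset.card_range] at this
  exact this

lemma ln_inj {H a a' : ℕ} {x x' : Fin (e + 3) → ℤ} (hx : x ∈ start (e := e) H a)
    (hx' : x' ∈ start (e := e) H a') (h : ln (a : ℤ) x = ln (a' : ℤ) x') : a = a' ∧ x = x' := by
  have hdir := congrArg AffineSubspace.direction h
  unfold ln at hdir
  rw [AffineSubspace.direction_mk', AffineSubspace.direction_mk'] at hdir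
  have h1 : dir (a' : ℤ) x' ∈ Submodule.span ℂ {dir (a : ℤ) x} := by
    rw [hdir]
    exact Submodule.mem_span_singleton_self _
  obtain ⟨c, hc⟩ := Submodule.mem_span_singleton.mp h1
  have c0 := congrFun hc (Fin.succ 0)
  have c1 := congrFun hc (Fin.succ 1)
  have c2 := congrFun hc (Fin.succ 2)
  simp only [Pi.smul_apply, smul_eq_mul, dir_succ, nv_zero, nv_one, nv_two] at c0 c1 c2
  push_cast at c0 c1 c2
  have hc1 : c = 1 := by
    linear_combination (1 / 2 : ℂ) * c2 - (1 / 2 : ℂ) * c1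
  rw [hc1] at c0
  have haa : a = a' := by
    have : (a : ℂ) = a' := by linear_combination (1 / 4 : ℂ) * c0
    exact_mod_cast this
  subst haa
  refine ⟨rfl, ?_⟩
  have h2 : φ x' ∈ ln (a : ℤ) x := by
    rw [h]
    exact AffineSubspace.self_mem_mk' _ _
  unfold ln at h2
  rw [AffineSubspace.mem_mk', vsub_eq_sub] at h2
  obtain ⟨c', hc'⟩ := Submodule.mem_span_singleton.mp h2
  have hci : ∀ i : Fin (e + 3), c' * ((nv (a : ℤ) i : ℤ) : ℂ) = ((x' i : ℤ) : ℂ) - ((x i : ℤ) : ℂ) := by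
    intro i
    have := congrFun hc' i.succ
    simpa only [Pi.smul_apply, smul_eq_mul, dir_succ, Pi.sub_apply, φ_succ] using this
  have d1 := hci 1
  have d2 := hci 2
  rw [nv_one] at d1
  rw [nv_two] at d2
  push_cast at d1 d2
  set k : ℤ := (x' 2 - x 2) - (x' 1 - x 1) with hk
  have hkc : 2 * c' = (k : ℂ) := by
    rw [hk]
    push_cast
    linear_combination d2 - d1
  have hint : 2 * (x' 2 - x 2) = k * (4 * (a : ℤ) ^ 2 + 1) := by
    have : (2 : ℂ) * ((x' 2 : ℂ) - (x 2 : ℂ)) = (k : ℂ) * (4 * (a : ℂ) ^ 2 + 1) := by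
      linear_combination (-2 : ℂ) * d2 + (4 * (a : ℂ) ^ 2 + 1) * hkc
    exact_mod_cast this
  have b1 := (Fintype.mem_piFinset.mp hx) 2
  have b2 := (Fintype.mem_piFinset.mp hx') 2
  rw [if_pos rfl, Finset.mem_Ico] at b1 b2
  push_cast at b1 b2
  have hk0 : k = 0 := by
    have hpos : (0 : ℤ) < 4 * (a : ℤ) ^ 2 + 1 := by positivity
    have hlt1 : k < 2 := by
      by_contra hcon
      push Not at hcon
      nlinarith
    have hlt2 : -2 < k := by
      by_contra hcon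
      push Not at hcon
      nlinarith
    have hpar : k % 2 = 0 := by
      have h3 : (k * (4 * (a : ℤ) ^ 2 + 1)) = 2 * (2 * k * (a : ℤ) ^ 2) + k := by ring
      rw [h3] at hint
      omega
    omega
  have hc0 : c' = 0 := by
    rw [hk0] at hkc
    have : (2 : ℂ) * c' = 0 := by rw [hkc]; simp
    simpa using this
  funext i
  have := hci i
  rw [hc0, zero_mul] at this
  have h3 : ((x' i : ℤ) : ℂ) = ((x i : ℤ) : ℂ) := (sub_eq_zero.mp this.symm)
  exact_mod_cast h3.symm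

lemma rich_finite {d : ℕ} (W : Finset (Fin d → ℂ)) {r : ℕ} (hr : 2 ≤ r) :
    {L : AffineSubspace ℂ (Fin d → ℂ) |
      IsFlat 1 L ∧ r ≤ ((W : Set (Fin d → ℂ)) ∩ (L : Set (Fin d → ℂ))).ncard}.Finite := by
  classical
  apply Set.Finite.subset (Finset.finite_toSet ((W ×ˢ W).image
    (fun pq => AffineSubspace.mk' pq.1 (Submodule.span ℂ {pq.2 - pq.1}))))
  rintro L ⟨⟨_, hL⟩, hLr⟩
  have hfin : ((W : Set (Fin d → ℂ)) ∩ (L : Set (Fin d → ℂ))).Finite :=
    (Finset.finite_toSet _).subset Set.inter_subset_left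
  have hone : 1 < ((W : Set (Fin d → ℂ)) ∩ (L : Set (Fin d → ℂ))).ncard := by omega
  obtain ⟨p, q, hp, hq, hpq⟩ := (Set.one_lt_ncard_iff hfin).mp hone
  refine Finset.mem_coe.mpr (Finset.mem_image.mpr ⟨(p, q), ?_, ?_⟩)
  · exact Finset.mem_product.mpr ⟨Finset.mem_coe.mp hp.1, Finset.mem_coe.mp hq.1⟩
  · simp only
    have hle : Submodule.span ℂ {q - p} ≤ L.direction := by
      rw [Submodule.span_singleton_le_iff_mem]
      exact AffineSubspace.vsub_mem_direction hq.2 hp.2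
    have heq : Submodule.span ℂ {q - p} = L.direction := by
      apply Submodule.eq_of_le_of_finrank_eq hle
      rw [hL]
      exact finrank_span_singleton (sub_ne_zero.mpr hpq.symm)
    rw [heq]
    exact AffineSubspace.mk'_eq hp.2

lemma sum_sq (J : ℕ) : J ^ 3 ≤ ∑ a ∈ Finset.Icc 1 J, (4 * a ^ 2 + 1) := by
  induction J with
  | zero => simp
  | succ J ih =>
    rw [Finset.sum_Icc_succ_top (by omega)]
    have h1 : (J + 1) ^ 3 = J ^ 3 + (3 * J ^ 2 + 3 * J + 1) := by ring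
    have h2 : 4 * (J + 1) ^ 2 + 1 = 4 * J ^ 2 + 8 * J + 5 := by ring
    rw [h1, h2]
    have h3 : 0 ≤ J ^ 2 := Nat.zero_le _
    linarith

lemma rich_lower (r J : ℕ) (hr : 2 ≤ r) :
    J ^ 3 * (r * (4 * J ^ 2 + 1)) ^ (e + 2) ≤
      numRich (V (e := e) (2 * (r * (4 * J ^ 2 + 1)))) r := by
  classical
  set H := r * (4 * J ^ 2 + 1) with hH
  set T : Finset (Σ _ : ℕ, (Fin (e + 3) → ℤ)) :=
    (Finset.Icc 1 J).sigma (fun a => start (e := e) H a) with hT
  have hTc : T.card = (∑ a ∈ Finset.Icc 1 J, (4 * a ^ 2 + 1)) * H ^ (e + 2) := by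
    rw [hT, Finset.card_sigma, Finset.sum_mul]
    exact Finset.sum_congr rfl fun a _ => card_start H a
  set g : (Σ _ : ℕ, (Fin (e + 3) → ℤ)) → AffineSubspace ℂ (Fin (e + 3 + 1) → ℂ) :=
    fun p => ln (p.1 : ℤ) p.2 with hg
  have hinj : Set.InjOn g T := by
    rintro ⟨a, x⟩ hp ⟨a', x'⟩ hp' h
    have h1 := Finset.mem_sigma.mp (Finset.mem_coe.mp hp)
    have h2 := Finset.mem_sigma.mp (Finset.mem_coe.mp hp')
    obtain ⟨rfl, rfl⟩ := ln_inj h1.2 h2.2 h
    rfl
  have hsub : ((T.image g : Finset _) : Set (AffineSubspace ℂ (Fin (e + 3 + 1) → ℂ))) ⊆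
      {L : AffineSubspace ℂ (Fin (e + 3 + 1) → ℂ) | IsFlat 1 L ∧
        r ≤ ((V (e := e) (2 * H) : Set (Fin (e + 3 + 1) → ℂ)) ∩
          (L : Set (Fin (e + 3 + 1) → ℂ))).ncard} := by
    intro L hL
    obtain ⟨⟨a, x⟩, hp, rfl⟩ := Finset.mem_image.mp (Finset.mem_coe.mp hL)
    have h1 := Finset.mem_sigma.mp hp
    have h2 := Finset.mem_Icc.mp h1.1
    exact ⟨ln_flat _ _, ln_rich h2.1 h2.2 h1.2⟩
  have hle := Set.ncard_le_ncard hsub (rich_finite _ hr)
  rw [Set.ncard_coe_finset, Finset.card_image_of_injOn hinj, hTc] at hle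
  unfold numRich
  exact (Nat.mul_le_mul_right _ (sum_sq J)).trans hle

/-- upper bound for the bracket -/
lemma bracket_le (b : ℕ) (hb : 1 ≤ b) :
    bracket (V (e := e) ((2 * e + 5) * b ^ (e + 4) * b)) ((2 * e + 5) * b ^ (e + 4))
      ≤ 2 * b * (((2 * e + 5) * b ^ (e + 4) * b : ℕ) : ℝ) ^ (e + 2) := by
  set r : ℕ := (2 * e + 5) * b ^ (e + 4) with hr
  set N : ℕ := r * b with hN
  have hb0 : (0 : ℝ) < b := by exact_mod_cast hb
  have hb1 : (1 : ℝ) ≤ b := by exact_mod_cast hb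
  have hrR : (r : ℝ) = (2 * e + 5) * (b : ℝ) ^ (e + 4) := by rw [hr]; push_cast; ring
  have hr0 : (0 : ℝ) < r := by rw [hrR]; positivity
  have hNR : (N : ℝ) = r * b := by rw [hN]; push_cast; ring
  have hN0 : (0 : ℝ) < N := by rw [hNR]; positivity
  have hN1 : 1 ≤ N := by exact_mod_cast hN0
  have hNbig : (N : ℝ) = (2 * e + 5) * (b : ℝ) ^ (e + 5) := by rw [hNR, hrR]; ring
  unfold bracket
  rw [card_V]
  have hcast : ((N ^ (e + 3) : ℕ) : ℝ) = (N : ℝ) ^ (e + 3) := by push_cast; ring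
  rw [hcast]
  -- first term
  have t1 : ((N : ℝ) ^ (e + 3)) ^ 2 / (r : ℝ) ^ (e + 3 + 1 + 1) = (N : ℝ) ^ (e + 1) * (b : ℝ) ^ (e + 5) := by
    rw [div_eq_iff (by positivity), hNR]
    ring
  -- last term
  have t3 : (N : ℝ) ^ (e + 3) / (r : ℝ) = (N : ℝ) ^ (e + 2) * b := by
    rw [div_eq_iff hr0.ne']
    have : (N : ℝ) ^ (e + 3) = (N : ℝ) ^ (e + 2) * N := by ring
    rw [this]
    nth_rewrite 2 [hNR]
    ring
  have t2 : ∑ ℓ ∈ Finset.Icc 2 (e + 3 + 1 - 1),
      (N : ℝ) ^ (e + 3) * (maxFlat (V (e := e) N) ℓ : ℝ) / (r : ℝ) ^ (ℓ + 1)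
      ≤ (e + 2) * (2 * (N : ℝ) ^ (e + 1) * (b : ℝ) ^ (e + 5)) := by
    have hcard : ((Finset.Icc 2 (e + 3 + 1 - 1)).card : ℝ) = e + 2 := by
      rw [Nat.card_Icc]
      have : e + 3 + 1 - 1 + 1 - 2 = e + 2 := by omega
      rw [this]
      push_cast
      ring
    rw [← hcard, ← nsmul_eq_mul]
    apply Finset.sum_le_card_nsmul
    intro ℓ hℓ
    rw [Finset.mem_Icc] at hℓ
    have hm := maxFlat_le (e := e) hN1 ℓ hℓ.1
    have hmR : (maxFlat (V (e := e) N) ℓ : ℝ) ≤ 2 * (N : ℝ) ^ (ℓ - 1) := by exact_mod_cast hm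
    obtain ⟨k, rfl⟩ := Nat.exists_eq_add_of_le hℓ.1
    have hk : 2 + k - 1 = k + 1 := by omega
    rw [hk] at hmR
    rw [div_le_iff₀ (by positivity)]
    have h1 : (N : ℝ) ^ (e + 3) * (maxFlat (V (e := e) N) (2 + k) : ℝ)
        ≤ (N : ℝ) ^ (e + 3) * (2 * (N : ℝ) ^ (k + 1)) :=
      mul_le_mul_of_nonneg_left hmR (by positivity)
    refine h1.trans ?_
    have h2 : (N : ℝ) ^ (e + 3) * (2 * (N : ℝ) ^ (k + 1))
        = 2 * (N : ℝ) ^ (e + 1) * ((N : ℝ) ^ (k + 3)) := by ring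
    rw [h2]
    have h3 : (N : ℝ) ^ (k + 3) = (b : ℝ) ^ (k + 3) * (r : ℝ) ^ (2 + k + 1) := by
      rw [hNR]; ring
    rw [h3]
    have h4 : (b : ℝ) ^ (k + 3) ≤ (b : ℝ) ^ (e + 5) := pow_le_pow_right₀ hb1 (by omega)
    have h5 : 2 * (N : ℝ) ^ (e + 1) * ((b : ℝ) ^ (k + 3) * (r : ℝ) ^ (2 + k + 1))
        = (2 * (N : ℝ) ^ (e + 1) * (r : ℝ) ^ (2 + k + 1)) * (b : ℝ) ^ (k + 3) := by ring
    have h6 : 2 * (N : ℝ) ^ (e + 1) * (b : ℝ) ^ (e + 5) * (r : ℝ) ^ (2 + k + 1)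
        = (2 * (N : ℝ) ^ (e + 1) * (r : ℝ) ^ (2 + k + 1)) * (b : ℝ) ^ (e + 5) := by ring
    rw [h5, h6]
    exact mul_le_mul_of_nonneg_left h4 (by positivity)
  rw [t1, t3]
  have hfin : (N : ℝ) ^ (e + 1) * (b : ℝ) ^ (e + 5)
      + (e + 2) * (2 * (N : ℝ) ^ (e + 1) * (b : ℝ) ^ (e + 5)) = (N : ℝ) ^ (e + 2) := by
    have : (N : ℝ) ^ (e + 2) = (N : ℝ) ^ (e + 1) * N := by ring
    rw [this]
    nth_rewrite 4 [hNbig]
    ring
  have hle : (N : ℝ) ^ (e + 2) ≤ (N : ℝ) ^ (e + 2) * b := by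
    nlinarith [pow_pos hN0 (e + 2)]
  calc _ ≤ (N : ℝ) ^ (e + 1) * (b : ℝ) ^ (e + 5)
        + (e + 2) * (2 * (N : ℝ) ^ (e + 1) * (b : ℝ) ^ (e + 5)) + (N : ℝ) ^ (e + 2) * b := by
        linarith [t2]
    _ = (N : ℝ) ^ (e + 2) + (N : ℝ) ^ (e + 2) * b := by rw [hfin]
    _ ≤ 2 * b * (N : ℝ) ^ (e + 2) := by nlinarith

end construction

lemma final_ineq (e : ℕ) {C m N J : ℝ} (hC : 0 ≤ C) (hm : 0 < m) (hN : 0 < N) (hJ : J = m ^ 2)
    (h : C * 2 ^ (e + 7) < m) :
    C * m * (20 * J ^ 2 * N ^ (e + 2)) < J ^ 3 * (N / 2) ^ (e + 2) := by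
  rw [div_pow]
  have h1 : C * 20 * 2 ^ (e + 2) < m := by
    have h3 : (2 : ℝ) ^ (e + 7) = 32 * 2 ^ (e + 2) := by ring
    rw [h3] at h
    have h6 : 0 ≤ C * 2 ^ (e + 2) := by positivity
    linarith
  have h2 : J ^ 3 * (N ^ (e + 2) / 2 ^ (e + 2)) = J ^ 3 * N ^ (e + 2) / 2 ^ (e + 2) := by ring
  rw [h2, lt_div_iff₀ (by positivity)]
  have hJ0 : 0 < J := by rw [hJ]; positivity
  have h4 : C * m * (20 * J ^ 2 * N ^ (e + 2)) * 2 ^ (e + 2)
      = (C * 20 * 2 ^ (e + 2)) * (m * (J ^ 2 * N ^ (e + 2))) := by ring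
  have h5 : J ^ 3 * N ^ (e + 2) = m * (m * (J ^ 2 * N ^ (e + 2))) := by
    rw [hJ]; ring
  rw [h4, h5]
  exact mul_lt_mul_of_pos_right h1 (by positivity)

/-- **Theorem.** In every dimension `d ≥ 4` the conjectured bound for the number of `r`-rich lines
fails, by a power of `n`: there is `δ > 0` such that for every constant `C` there are a finite set
`V` of `n ≥ C` points of `ℂ^d` and an integer `r ≥ 2` for which the number of `r`-rich lines is
larger than `C n^δ (n² r^(-d-1) + ∑_{2 ≤ ℓ ≤ d-1} n s_ℓ r^(-ℓ-1) + n r^(-1))`. -/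
theorem result : ∀ d : ℕ, 4 ≤ d → ∃ δ : ℝ, 0 < δ ∧ ∀ C : ℝ,
    ∃ (V : Finset (Fin d → ℂ)) (r : ℕ), C ≤ (V.card : ℝ) ∧ 2 ≤ r ∧
      C * (V.card : ℝ) ^ δ * bracket V r < (numRich V r : ℝ) := by
  intro d hd
  obtain ⟨e, rfl⟩ : ∃ e, d = e + 3 + 1 := ⟨d - 4, by omega⟩
  set E : ℕ := (3 * e + 16) * (e + 3) with hE
  have hE0 : (0 : ℝ) < E := by rw [hE]; positivity
  refine ⟨1 / (2 * E), by positivity, fun C => ?_⟩
  obtain ⟨m, hm⟩ := exists_nat_gt (|C| * (2 ^ (e + 7)) + 2 * e + 20)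
  have hC0 : 0 ≤ |C| := abs_nonneg C
  have h2e : (0 : ℝ) < 2 ^ (e + 7) := by positivity
  set J : ℕ := m ^ 2 with hJ
  set b : ℕ := 2 * (4 * J ^ 2 + 1) with hb
  set r : ℕ := (2 * e + 5) * b ^ (e + 4) with hr
  set N : ℕ := r * b with hN
  have hmR : (2 * e + 20 : ℝ) < m := by
    have : 0 ≤ |C| * (2 : ℝ) ^ (e + 7) := by positivity
    linarith
  have hmN : 2 * e + 20 < m := by exact_mod_cast hmR
  have hm1 : 1 ≤ m := by omega
  have hb1 : 1 ≤ b := by rw [hb]; omega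
  have hJ1 : m ≤ J := by rw [hJ]; nlinarith
  have hbpow : 1 ≤ b ^ (e + 4) := Nat.one_le_pow _ _ hb1
  have hr2 : 2 ≤ r := by rw [hr]; nlinarith
  have hNeq : N = 2 * (r * (4 * J ^ 2 + 1)) := by rw [hN, hb]; ring
  refine ⟨V N, r, ?_, hr2, ?_⟩
  · rw [card_V]
    have h1 : m ≤ N := by
      have : b ≤ N := by rw [hN]; nlinarith
      have h2 : J ≤ b := by rw [hb]; nlinarith [sq_nonneg (J : ℤ), Nat.zero_le J]
      omega
    have h2 : N ≤ N ^ (e + 3) := Nat.le_self_pow (by omega) N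
    have h3 : (m : ℝ) ≤ ((N ^ (e + 3) : ℕ) : ℝ) := by exact_mod_cast h1.trans h2
    have h4 : C ≤ |C| * (2 : ℝ) ^ (e + 7) := by
      have h5 : (1 : ℝ) ≤ (2 : ℝ) ^ (e + 7) := one_le_pow₀ (by norm_num)
      nlinarith [le_abs_self C]
    have h6 : (0 : ℝ) ≤ e := Nat.cast_nonneg e
    linarith
  · -- the main inequality
    have hlow := rich_lower (e := e) r J hr2
    rw [← hNeq] at hlow
    have hup := bracket_le (e := e) b hb1
    rw [← hr, ← hN] at hup
    have hbR : (b : ℝ) = 2 * (4 * (J : ℝ) ^ 2 + 1) := by rw [hb]; push_cast; ring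
    have hJR : (m : ℝ) ≤ J := by exact_mod_cast hJ1
    have hJ20 : (20 : ℝ) ≤ J := by
      have : (0 : ℝ) ≤ e := Nat.cast_nonneg e
      linarith
    have hb10 : (b : ℝ) ≤ 10 * (J : ℝ) ^ 2 := by rw [hbR]; nlinarith
    have hbJ3 : (b : ℝ) ≤ (J : ℝ) ^ 3 := by
      have : (10 : ℝ) * (J : ℝ) ^ 2 ≤ (J : ℝ) ^ 3 := by nlinarith [sq_nonneg (J : ℝ)]
      linarith
    have hJ0 : (0 : ℝ) < J := by linarith
    have hb0 : (0 : ℝ) < b := by rw [hbR]; positivity
    -- n ≤ J ^ E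
    have hn : ((V (e := e) N).card : ℝ) ≤ (J : ℝ) ^ E := by
      rw [card_V]
      push_cast
      have h1 : (N : ℝ) ≤ (J : ℝ) ^ (3 * e + 16) := by
        have hNR : (N : ℝ) = (2 * e + 5) * (b : ℝ) ^ (e + 5) := by
          rw [hN, hr]; push_cast; ring
        rw [hNR]
        have h2 : (2 * e + 5 : ℝ) ≤ J := by linarith
        have h3 : (b : ℝ) ^ (e + 5) ≤ ((J : ℝ) ^ 3) ^ (e + 5) := pow_le_pow_left₀ hb0.le hbJ3 _
        calc (2 * e + 5 : ℝ) * (b : ℝ) ^ (e + 5) ≤ J * ((J : ℝ) ^ 3) ^ (e + 5) :=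
              mul_le_mul h2 h3 (by positivity) hJ0.le
          _ = (J : ℝ) ^ (3 * e + 16) := by ring
      calc (N : ℝ) ^ (e + 3) ≤ ((J : ℝ) ^ (3 * e + 16)) ^ (e + 3) :=
            pow_le_pow_left₀ (Nat.cast_nonneg _) h1 _
        _ = (J : ℝ) ^ E := by rw [hE, ← pow_mul]
    have hnδ : ((V (e := e) N).card : ℝ) ^ (1 / (2 * (E : ℝ))) ≤ m := by
      calc ((V (e := e) N).card : ℝ) ^ (1 / (2 * (E : ℝ)))
          ≤ ((J : ℝ) ^ E) ^ (1 / (2 * (E : ℝ))) :=
            Real.rpow_le_rpow (Nat.cast_nonneg _) hn (by positivity)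
        _ = ((m : ℝ) ^ (2 * E)) ^ (1 / (2 * (E : ℝ))) := by
            rw [hJ]; push_cast; rw [← pow_mul]
        _ = m := by
            have hE1 : (2 * E : ℕ) ≠ 0 := by
              have : 0 < E := by exact_mod_cast hE0
              omega
            have h := Real.pow_rpow_inv_natCast (x := (m : ℝ)) (Nat.cast_nonneg _) hE1
            rw [one_div]
            push_cast at h
            exact h
    have hnδ0 : 0 ≤ ((V (e := e) N).card : ℝ) ^ (1 / (2 * (E : ℝ))) :=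
      Real.rpow_nonneg (Nat.cast_nonneg _) _
    have hbr0 : 0 ≤ bracket (V (e := e) N) r := bracket_nonneg _ _
    have hm0 : (0 : ℝ) < m := by exact_mod_cast hm1
    have hNR0 : (0 : ℝ) < N := by
      rw [hN, hr]
      have : (0 : ℝ) < b := hb0
      push_cast
      positivity
    have hlowR : (J : ℝ) ^ 3 * ((N : ℝ) / 2) ^ (e + 2) ≤ (numRich (V (e := e) N) r : ℝ) := by
      have h1 : ((J ^ 3 * (r * (4 * J ^ 2 + 1)) ^ (e + 2) : ℕ) : ℝ)
          ≤ (numRich (V (e := e) N) r : ℝ) := by exact_mod_cast hlow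
      have h2 : ((N : ℝ) / 2) = ((r * (4 * J ^ 2 + 1) : ℕ) : ℝ) := by
        rw [hNeq]; push_cast; ring
      rw [h2]
      push_cast
      push_cast at h1
      exact h1
    calc C * ((V (e := e) N).card : ℝ) ^ (1 / (2 * (E : ℝ))) * bracket (V (e := e) N) r
        ≤ |C| * m * (2 * b * (N : ℝ) ^ (e + 2)) := by
          apply mul_le_mul _ hup hbr0 (by positivity)
          apply mul_le_mul (le_abs_self C) hnδ hnδ0 hC0
      _ ≤ |C| * m * (20 * (J : ℝ) ^ 2 * (N : ℝ) ^ (e + 2)) := by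
          apply mul_le_mul_of_nonneg_left _ (by positivity)
          apply mul_le_mul_of_nonneg_right _ (by positivity)
          linarith
      _ < (J : ℝ) ^ 3 * ((N : ℝ) / 2) ^ (e + 2) := by
          refine final_ineq e hC0 hm0 hNR0 ?_ ?_
          · rw [hJ]; push_cast; ring
          · have h7 : (0 : ℝ) ≤ e := Nat.cast_nonneg e
            linarith
      _ ≤ (numRich (V (e := e) N) r : ℝ) := hlowR

end Pool.Agent.Results.MP_0eaff0_co.QuadricDisproof
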